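import Pool.Agent.Run7.h991.MU.Extra
import Pool.Agent.Run7.h991.MU.NoAngle
import Pool.Agent.Run7.h991.MU.LOC
import Pool.Agent.Run7.h459.MU.AFUN
import Pool.Agent.Run7.h24.MU.CHORD
import Pool.Agent.Run7.h73.MU.COUNT
import Pool.Agent.Run7.h600.MU.FINC
import Pool.Agent.Run7.h67.MU.FINL
import Pool.Agent.Run7.h352.MU.KHOL
import Pool.Agent.Run7.h398.MU.LAG
import Pool.Agent.Run7.h633.MU.MAIN
import Pool.Agent.Run7.h991.MU.NZ
import Pool.Agent.Run7.h991.MU.SUP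
import Pool.Agent.Run7.h270.MU.RAY
import Pool.Agent.Run7.h579.MU.RAYA
import Pool.Agent.Run7.h579.MU.ZER
import Pool.Agent.Run7.h890.MU.TEL
import Pool.Agent.Run7.h234.MU.C0D

/-!
# MP_dde81e_an: monomial systems of positive upper density are complete

`Q = [0,1]²`.  `Ω` is a set of pairs of positive integers of positive upper density
(`#{(m,n) ∈ Ω : m, n ≤ R} ≥ δ R²` for arbitrarily large `R`), in an angle or not.  Then the monomials
`x^m y^n`, `(m,n) ∈ Ω`, span `C_0(Q)` (uniform norm) and `L²(Q)`.  For such `Ω` the series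
`∑ 1/(m n)` diverges, so this settles both questions of the page for all sets of positive upper
density.
-/

open MeasureTheory

namespace Pool.Agent.Results.MP_dde81e_an.PositiveUpperDensity

open H991.MU

/-- The finite linear combinations of the monomials `x^m y^n`, `(m,n) ∈ Ω`, in `C(Q)`. -/
noncomputable def monSpan (Ω : Set (ℕ × ℕ)) : Submodule ℂ C(Q, ℂ) :=
  Submodule.span ℂ {g : C(Q, ℂ) | ∃ p ∈ Ω, g = mon p.1 p.2}

/-- The monomials with exponents in `Ω` span `C_0(Q)`. -/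
def SpansC0 (Ω : Set (ℕ × ℕ)) : Prop := closure (monSpan Ω : Set C(Q, ℂ)) = C0

/-- The monomials with exponents in `Ω` span `L²(Q)`: every square integrable function is
approximated in the `L²` norm by their linear combinations. -/
def SpansL2 (Ω : Set (ℕ × ℕ)) : Prop :=
  ∀ f : Q → ℂ, MemLp f 2 volume → ∀ η : ℝ, 0 < η →
    ∃ P ∈ monSpan Ω, eLpNorm (fun q => f q - P q) 2 volume ≤ ENNReal.ofReal η

/-- The series `∑ 1/(m n)` over `Ω` diverges. -/
def DivergentSum (Ω : Set (ℕ × ℕ)) : Prop :=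
  ¬ Summable (fun p : Ω => 1 / (((p : ℕ × ℕ).1 : ℝ) * ((p : ℕ × ℕ).2 : ℝ)))

theorem s_fin : S_FINC := by
  have hLAG : S_LAG := t_LAG t_ZER t_LPR
  exact t_FINC
    (t_MAIN (t_AFUN t_NZ t_SUP) t_CHORD t_TEL (t_RAYA t_RAY) (t_LOC t_ZER hLAG) t_COUNT)
    t_KHOL t_C0D

theorem spansL2 (Ω : Set (ℕ × ℕ)) (ε δ : ℝ) (hε : 0 < ε) (hε1 : ε ≤ 1) (hδ : 0 < δ)
    (hΩ : InAngle Ω ε) (hdens : Dens Ω δ) : SpansL2 Ω := by
  intro f hf η hη
  have h := t_FINL s_fin Ω ε δ hε hε1 hδ hΩ hdens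
  set L := ContinuousMap.toLp (E := ℂ) 2 (volume : Measure Q) ℂ with hL
  have hset : {g : Lp ℂ 2 (volume : Measure Q) | ∃ p ∈ Ω, g = L (mon p.1 p.2)} =
      (L : C(Q, ℂ) →ₗ[ℂ] Lp ℂ 2 (volume : Measure Q)) ''
        {g : C(Q, ℂ) | ∃ p ∈ Ω, g = mon p.1 p.2} := by
    ext g
    constructor
    · rintro ⟨p, hp, rfl⟩
      exact ⟨mon p.1 p.2, ⟨p, hp, rfl⟩, rfl⟩
    · rintro ⟨g', ⟨p, hp, rfl⟩, rfl⟩
      exact ⟨p, hp, rfl⟩
  rw [hset, Submodule.span_image] at h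
  have hmem : hf.toLp f ∈ closure
      ((Submodule.map (L : C(Q, ℂ) →ₗ[ℂ] Lp ℂ 2 (volume : Measure Q)) (monSpan Ω) :
        Submodule ℂ (Lp ℂ 2 (volume : Measure Q))) : Set (Lp ℂ 2 (volume : Measure Q))) := by
    have h2 : hf.toLp f ∈ (Submodule.map (L : C(Q, ℂ) →ₗ[ℂ] Lp ℂ 2 (volume : Measure Q))
        (monSpan Ω)).topologicalClosure := by
      unfold monSpan
      rw [h]
      trivial
    exact h2
  rw [EMetric.mem_closure_iff] at hmem
  obtain ⟨b, hb, hdist⟩ := hmem (ENNReal.ofReal η) (ENNReal.ofReal_pos.mpr hη)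
  obtain ⟨P, hP, rfl⟩ := hb
  refine ⟨P, hP, ?_⟩
  refine le_trans (le_of_eq ?_) hdist.le
  rw [Lp.edist_def]
  apply eLpNorm_congr_ae
  have h1 := hf.coeFn_toLp
  have h2 := ContinuousMap.coeFn_toLp (p := 2) (𝕜 := ℂ) (volume : Measure Q) P
  filter_upwards [h1, h2] with q h3 h4
  rw [Pi.sub_apply, h3]
  congr 1
  exact h4.symm

theorem monSpan_mono {Ω Ω' : Set (ℕ × ℕ)} (h : Ω' ⊆ Ω) : monSpan Ω' ≤ monSpan Ω := by
  apply Submodule.span_mono
  rintro g ⟨p, hp, rfl⟩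
  exact ⟨p, h hp, rfl⟩

theorem divergentSum_mono {Ω Ω' : Set (ℕ × ℕ)} (h : Ω' ⊆ Ω) (hd : DivergentSum Ω') :
    DivergentSum Ω := by
  intro hs
  apply hd
  have h2 := hs.comp_injective (Set.inclusion_injective h)
  have h3 : ((fun p : Ω => 1 / (((p : ℕ × ℕ).1 : ℝ) * ((p : ℕ × ℕ).2 : ℝ))) ∘ Set.inclusion h) =
      (fun p : Ω' => 1 / (((p : ℕ × ℕ).1 : ℝ) * ((p : ℕ × ℕ).2 : ℝ))) := by
    funext p
    simp only [Function.comp_apply, Set.coe_inclusion]
  rw [h3] at h2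
  exact h2

/-- Let `Ω` be a set of pairs of positive integers and `δ > 0` such that
`#{(m,n) ∈ Ω : m, n ≤ R} ≥ δ R²` for arbitrarily large `R`.  Then `∑ 1/(m n)` over `Ω` diverges, the
closed span of the monomials `x^m y^n`, `(m,n) ∈ Ω`, in `C([0,1]²)` is exactly `C_0(Q)`, and the
monomials span `L²([0,1]²)`. -/
theorem result (Ω : Set (ℕ × ℕ)) (δ : ℝ) (hδ : 0 < δ) (hpos : ∀ p ∈ Ω, 1 ≤ p.1 ∧ 1 ≤ p.2)
    (hdens : Dens Ω δ) : DivergentSum Ω ∧ SpansC0 Ω ∧ SpansL2 Ω := by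
  have hδ1 : 0 < min δ 1 := lt_min hδ one_pos
  have hdens1 : Dens Ω (min δ 1) := by
    intro R0
    obtain ⟨R, hR, hc⟩ := hdens R0
    refine ⟨R, hR, le_trans ?_ hc⟩
    exact mul_le_mul_of_nonneg_right (min_le_left _ _) (by positivity)
  have hε : 0 < min δ 1 / 4 := by positivity
  have hε1 : min δ 1 / 4 ≤ 1 := by
    have := min_le_right δ 1
    linarith
  have hδ2 : 0 < min δ 1 / 2 := by positivity
  have hang := angPart_inAngle Ω (min δ 1 / 4) hpos
  have hd := angPart_dens Ω (min δ 1) hδ1 hpos hdens1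
  have hsub : angPart Ω (min δ 1 / 4) ⊆ Ω := fun p hp => hp.1
  refine ⟨?_, ?_, ?_⟩
  · exact divergentSum_mono hsub (not_summable (angPart Ω (min δ 1 / 4)) _ _ hδ2 hang hd)
  · have h1 := closure_eq s_fin _ _ _ hε hε1 hδ2 hang hd
    apply Set.Subset.antisymm
    · have : (monSpan Ω).topologicalClosure ≤ C0sub := by
        apply Submodule.topologicalClosure_minimal
        · unfold monSpan
          rw [Submodule.span_le]
          rintro g ⟨p, hp, rfl⟩
          exact mon_mem_C0 (hpos p hp).1 (hpos p hp).2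
        · exact isClosed_C0
      exact this
    · rw [← h1]
      exact closure_mono (monSpan_mono hsub)
  · intro f hf η hη
    obtain ⟨P, hP, hP2⟩ := spansL2 _ _ _ hε hε1 hδ2 hang hd f hf η hη
    exact ⟨P, monSpan_mono hsub hP, hP2⟩

end Pool.Agent.Results.MP_dde81e_an.PositiveUpperDensity
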